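import Mathlib.AlgebraicGeometry.AffineSpace
import Mathlib.AlgebraicGeometry.Morphisms.Smooth
import Mathlib.AlgebraicGeometry.Morphisms.Proper
import Mathlib.Algebra.DualNumber

/-!
Vector bundles, sprays and Gromov ellipticity for schemes over a field.
-/

open AlgebraicGeometry CategoryTheory Limits

namespace Pool.Agent.MP_e8e0b6_ag

/-- The endomorphism `x ↦ g x` of affine `r`-space over `W` given by a matrix of functions
on `W`. -/
noncomputable def linMap {r : ℕ} {W : Scheme.{0}} (g : Matrix (Fin r) (Fin r) Γ(W, ⊤)) :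
    𝔸(Fin r; W) ⟶ 𝔸(Fin r; W) :=
  AffineSpace.homOfVector (𝔸(Fin r; W) ↘ W) fun a =>
    ∑ b, (𝔸(Fin r; W) ↘ W).appTop (g a b) * AffineSpace.coord W b

/-- A vector bundle `p : E ⟶ X` with its zero section: the maps `e i` identify affine space over
`U i` with the part of `E` above `U i`, and over every affine open subset of `U i ∩ U j` the
two identifications differ by a linear map. -/
structure VectorBundle (X : Scheme.{0}) where
  E : Scheme.{0}
  p : E ⟶ X
  zero : X ⟶ E
  rank : ℕ
  ι : Type
  U : ι → X.Opens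
  cover : ∀ x : X, ∃ i, x ∈ U i
  e : ∀ i, 𝔸(Fin rank; U i) ⟶ E
  isPullback : ∀ i, IsPullback (e i) (𝔸(Fin rank; U i) ↘ U i) p (U i).ι
  zero_eq : ∀ i, AffineSpace.homOfVector (𝟙 _) (fun _ => 0) ≫ e i = (U i).ι ≫ zero
  linear : ∀ (i j : ι) (W : X.Opens), IsAffineOpen W → ∀ (hi : W ≤ U i) (hj : W ≤ U j),
    ∃ g : Matrix (Fin rank) (Fin rank) Γ(W, ⊤), AffineSpace.map (Fin rank) (X.homOfLE hi) ≫ e i =
      linMap g ≫ AffineSpace.map (Fin rank) (X.homOfLE hj) ≫ e j

variable {k : Type} [Field k] {X : Scheme.{0}}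

variable (k) in
/-- The structure map of the spectrum of the dual numbers. -/
noncomputable def epsProj : Spec (CommRingCat.of (DualNumber k)) ⟶ Spec (CommRingCat.of k) :=
  Spec.map (CommRingCat.ofHom (algebraMap k (DualNumber k)))

variable (k) in
/-- The closed point of the spectrum of the dual numbers. -/
noncomputable def epsPoint : Spec (CommRingCat.of k) ⟶ Spec (CommRingCat.of (DualNumber k)) :=
  Spec.map (CommRingCat.ofHom (TrivSqZeroExt.fstHom k k k).toRingHom)

/-- A spray on the `k`-scheme `f : X ⟶ Spec k`: a vector bundle with a `k`-morphism `s : E ⟶ X`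
that is the identity on the zero section. -/
structure Spray (f : X ⟶ Spec (CommRingCat.of k)) extends VectorBundle X where
  s : E ⟶ X
  s_over : s ≫ f = p ≫ f
  zero_s : zero ≫ s = 𝟙 X

/-- Every tangent vector `v` at a `k`-point `x` of `X` is the image under `s` of a tangent vector
`w` at the origin of the fibre of `E` over `x`. -/
def Spray.Dominating {f : X ⟶ Spec (CommRingCat.of k)} (σ : Spray f) : Prop :=
  ∀ v : Spec (CommRingCat.of (DualNumber k)) ⟶ X, v ≫ f = epsProj k →
    ∃ w : Spec (CommRingCat.of (DualNumber k)) ⟶ σ.E, w ≫ σ.p = epsProj k ≫ epsPoint k ≫ v ∧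
      epsPoint k ≫ w = epsPoint k ≫ v ≫ σ.zero ∧ w ≫ σ.s = v

/-- A smooth variety: an integral separated smooth scheme of finite type over `k`. -/
structure SmoothVariety (f : X ⟶ Spec (CommRingCat.of k)) : Prop where
  integral : IsIntegral X
  separated : IsSeparated f
  compact : QuasiCompact f
  finiteType : LocallyOfFiniteType f
  smooth : Smooth f

/-- A Gromov elliptic variety: a smooth variety with a dominating spray. -/
def Elliptic (f : X ⟶ Spec (CommRingCat.of k)) : Prop :=
  SmoothVariety f ∧ ∃ σ : Spray f, σ.Dominating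

end Pool.Agent.MP_e8e0b6_ag
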